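import Pool.Agent.helper45.SGC.Spec

/-!
# Project SGC (MP_069684_lc), row NUM
-/

set_option autoImplicit false

namespace Pool.Agent.SGC

open Finset Pool.Agent.helper38.Neg Pool.Agent.helper55.NT

theorem NUM_five (m : ℕ) (hm : 16 ≤ m) : (10 * m + 1) ^ 5 ≤ 5 ^ m := by
  induction m, hm using Nat.le_induction with
  | base => norm_num
  | succ m hm ih =>
    have h1 : 161 * (10 * (m + 1) + 1) ≤ 171 * (10 * m + 1) := by omega
    have h2 : (161 * (10 * (m + 1) + 1)) ^ 5 ≤ (171 * (10 * m + 1)) ^ 5 := Nat.pow_le_pow_left h1 5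
    rw [mul_pow, mul_pow] at h2
    have h3 : (171 : ℕ) ^ 5 * (10 * m + 1) ^ 5 ≤ (161 : ℕ) ^ 5 * (5 * (10 * m + 1) ^ 5) := by
      rw [← mul_assoc]
      exact Nat.mul_le_mul_right _ (by norm_num)
    have h4 : (161 : ℕ) ^ 5 * (10 * (m + 1) + 1) ^ 5 ≤ (161 : ℕ) ^ 5 * (5 * (10 * m + 1) ^ 5) := h2.trans h3
    have h5 : (10 * (m + 1) + 1) ^ 5 ≤ 5 * (10 * m + 1) ^ 5 := Nat.le_of_mul_le_mul_left h4 (by norm_num)
    calc (10 * (m + 1) + 1) ^ 5 ≤ 5 * (10 * m + 1) ^ 5 := h5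
      _ ≤ 5 * 5 ^ m := Nat.mul_le_mul_left _ ih
      _ = 5 ^ (m + 1) := by rw [pow_succ, mul_comm]

theorem NUM : NUM_stmt := by
  intro s κ h
  have hκ : 240 < κ := by
    have h1 : (2 : ℕ) ^ 240 ≤ (s + 2) ^ 240 := Nat.pow_le_pow_left (by omega) 240
    exact (Nat.pow_lt_pow_iff_right (by norm_num)).1 (h1.trans_lt h)
  obtain ⟨m, hm⟩ : ∃ m, m = κ / 15 := ⟨_, rfl⟩
  have hm16 : 16 ≤ m := by omega
  have hm1 : 15 * m ≤ κ := by omega
  have hm2 : κ ≤ 16 * m := by omega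
  refine ⟨m, by omega, hm1, ?_⟩
  have h5 := NUM_five m hm16
  have hs : s ^ 4 < 5 ^ m := by
    by_contra hcon
    push Not at hcon
    have e1 : (5 ^ m) ^ 60 ≤ (s ^ 4) ^ 60 := Nat.pow_le_pow_left hcon 60
    have e2 : (s ^ 4) ^ 60 = s ^ 240 := by rw [← pow_mul]
    have e3 : s ^ 240 ≤ (s + 2) ^ 240 := Nat.pow_le_pow_left (by omega) 240
    have e4 : (2 : ℕ) ^ κ ≤ 2 ^ (16 * m) := Nat.pow_le_pow_right (by norm_num) hm2
    have e5 : (2 : ℕ) ^ (16 * m) ≤ (5 ^ m) ^ 60 := by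
      have e6 : ((5 : ℕ) ^ m) ^ 60 = (5 ^ 60) ^ m := by rw [← pow_mul, ← pow_mul, mul_comm]
      rw [e6, pow_mul]
      exact Nat.pow_le_pow_left (by norm_num) m
    rw [e2] at e1
    exact absurd (e1.trans e3) (by
      rw [not_le]
      exact h.trans_le (e4.trans e5))
  have h6 : 2 * (5 * m) + 1 = 10 * m + 1 := by ring
  rw [h6]
  calc s ^ 4 * (10 * m + 1) ^ 5 ≤ s ^ 4 * 5 ^ m := Nat.mul_le_mul_left _ h5
    _ < 5 ^ m * 5 ^ m := Nat.mul_lt_mul_of_pos_right hs (by positivity)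
    _ = 5 ^ (2 * m) := by rw [two_mul, pow_add]

end Pool.Agent.SGC
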