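import Pool.Agent.helper45.SGC.Spec

/-!
# Project SGC (MP_069684_lc), row SEM
-/

set_option autoImplicit false

namespace Pool.Agent.SGC

open Finset Pool.Agent.helper38.Neg Pool.Agent.helper55.NT

theorem SEM_inst {n r : ℕ} (v : Fin r → Fin 3 → Fin (tv n)) (b : Fin r → ZMod 2) (c : Cl (tv n)) :
    inst v b (pos c) = true ↔ ∃ e, v e = c.1 ∧ ∑ k, c.2 k = b e := by
  unfold inst
  rw [decide_eq_true_iff]
  constructor
  · rintro ⟨e, a, h1, h2⟩
    have h3 : (v e, a) = c := pos_injective h1
    refine ⟨e, ?_, ?_⟩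
    · rw [← h3]
    · rw [← h3]
      exact h2
  · rintro ⟨e, h1, h2⟩
    exact ⟨e, c.2, by rw [h1], h2⟩

theorem SEM_ne (x y : ZMod 2) (h : x ≠ y) : x + 1 = y := by
  revert x y
  decide

theorem SEM_one (x : ZMod 2) (h : (0 : ZMod 2) ≠ x) : x = 1 := by
  revert x
  decide

theorem SEM : SEM_stmt := by
  intro n r v hv
  refine ⟨⟨?_, ?_⟩, ?_⟩
  · refine ⟨0, fun c hc => ?_⟩
    rw [SEM_inst] at hc
    obtain ⟨e, -, h2⟩ := hc
    by_contra hcon
    push Not at hcon
    have h3 : ∀ k, c.2 k = 1 := fun k => SEM_one _ (hcon k)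
    rw [Finset.sum_congr rfl fun k _ => h3 k] at h2
    revert h2
    simp only [Finset.sum_const, Finset.card_univ, Fintype.card_fin, Pi.zero_apply]
    decide
  · refine ⟨0, fun c hc => ?_⟩
    rw [SEM_inst] at hc
    obtain ⟨e, -, h2⟩ := hc
    rw [h2]
    simp
  · intro f
    have key : ∀ α : Sg (tv n), (∀ e, ∑ k, α (v e k) = (Pi.single f 1 : Fin r → ZMod 2) e) → False := by
      intro α h
      have h1 := hv α
      have h2 : ∑ e, Mv v α e = ∑ e, (Pi.single f 1 : Fin r → ZMod 2) e :=
        Finset.sum_congr rfl fun e _ => h e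
      rw [h1, Finset.sum_pi_single'] at h2
      simp at h2
    constructor
    · rintro ⟨α, hα⟩
      apply key α
      intro e
      by_contra hne
      have h1 := SEM_ne _ _ hne
      obtain ⟨k, hk⟩ := hα (v e, fun k => α (v e k) + 1) (by
        rw [SEM_inst]
        refine ⟨e, rfl, ?_⟩
        show ∑ k, (α (v e k) + 1) = _
        rw [Finset.sum_add_distrib, ← h1]
        congr 1)
      have h2 : α (v e k) = α (v e k) + 1 := hk
      have h3 : (1 : ZMod 2) = 0 := by
        have h4 : α (v e k) + 0 = α (v e k) + 1 := by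
          rw [add_zero]
          exact h2
        exact (add_left_cancel h4).symm
      exact one_ne_zero h3
    · rintro ⟨α, hα⟩
      apply key α
      intro e
      have h1 := hα (v e, ![(Pi.single f 1 : Fin r → ZMod 2) e, 0, 0]) (by
        rw [SEM_inst]
        refine ⟨e, rfl, ?_⟩
        simp [Fin.sum_univ_three])
      have h2 : ∑ k, α (v e k) = ∑ k, (![(Pi.single f 1 : Fin r → ZMod 2) e, 0, 0] : Fin 3 → ZMod 2) k := h1
      rw [h2]
      simp [Fin.sum_univ_three]

end Pool.Agent.SGC
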